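import Pool.Agent.W423.NC.Defs

set_option autoImplicit false

/-! NC, task Zeta: from the lines to the zeta function. -/

namespace Pool.Agent.W372.NC

open MvPolynomial Pool.Agent.H628R4.TZ Pool.Agent.W425.SM
open Pool.Agent.W423.MG Pool.Agent.W423.NC

variable {r N P : ℕ}

/-- the field of rational functions -/
abbrev KF (P : ℕ) := FractionRing (MvPolynomial (Fin (P+1)) ℂ)

/-- `s_k ↦ X + y_k` -/
noncomputable def tau :
    MvPolynomial (Fin (P+1)) ℂ →ₐ[ℂ] Polynomial (MvPolynomial (Fin (P+1)) ℂ) :=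
  aeval (fun k => Polynomial.X + Polynomial.C (X k))

lemma tau_C (c : ℂ) : tau (P := P) (C c) = Polynomial.C (C c) := by
  unfold tau
  rw [aeval_C]
  rfl

lemma tau_X (k : Fin (P+1)) : tau (X k) = Polynomial.X + Polynomial.C (X k) := by
  unfold tau
  rw [aeval_X]

lemma tau_inv (p : MvPolynomial (Fin (P+1)) ℂ) : (tau p).eval 0 = p := by
  induction p using MvPolynomial.induction_on with
  | C a => rw [tau_C, Polynomial.eval_C]
  | add p q hp hq => rw [map_add, Polynomial.eval_add, hp, hq]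
  | mul_X p i hp =>
    rw [map_mul, Polynomial.eval_mul, hp, tau_X]
    simp

/-- the point of the line -/
noncomputable def pt (η : Fin (P+1) → ℝ) (s : ℝ) : Fin (P+1) → ℂ :=
  fun k => ((s + η k : ℝ) : ℂ)

/-- the restriction to the line -/
noncomputable def evL (η : Fin (P+1) → ℝ) : MvPolynomial (Fin (P+1)) ℂ →ₐ[ℂ] Polynomial ℂ :=
  aeval (fun k => Polynomial.X + Polynomial.C ((η k : ℝ) : ℂ))

lemma eval_evL (η : Fin (P+1) → ℝ) (s : ℝ) (p : MvPolynomial (Fin (P+1)) ℂ) :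
    (evL η p).eval (s : ℂ) = eval (pt η s) p := by
  induction p using MvPolynomial.induction_on with
  | C a =>
    unfold evL
    rw [aeval_C, eval_C, Polynomial.algebraMap_apply, Polynomial.eval_C]
    rfl
  | add p q hp hq => rw [map_add, Polynomial.eval_add, hp, hq, map_add]
  | mul_X p i hp =>
    rw [map_mul, Polynomial.eval_mul, hp, map_mul, eval_X]
    unfold evL pt
    rw [aeval_X]
    simp

lemma map_tau (η : Fin (P+1) → ℝ) (p : MvPolynomial (Fin (P+1)) ℂ) :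
    (tau p).map (eval (fun i => ((η i : ℝ) : ℂ))) = evL η p := by
  induction p using MvPolynomial.induction_on with
  | C a =>
    rw [tau_C, Polynomial.map_C, eval_C, evL, aeval_C]
    rfl
  | add p q hp hq => rw [map_add, Polynomial.map_add, hp, hq, map_add]
  | mul_X p i hp =>
    rw [map_mul, Polynomial.map_mul, hp, map_mul, tau_X]
    congr 1
    unfold evL
    rw [aeval_X]
    simp

lemma dvd_of_eval {ι : Type} (G H : Polynomial (MvPolynomial ι ℂ)) (hH : IsUnit H.leadingCoeff)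
    (h : ∀ m : ι → ℝ, (∀ i, 0 < m i ∧ m i < 1) →
      H.map (eval (fun i => ((m i : ℝ) : ℂ))) ∣ G.map (eval (fun i => ((m i : ℝ) : ℂ)))) :
    H ∣ G := by
  obtain ⟨u, hu⟩ := hH
  set H' : Polynomial (MvPolynomial ι ℂ) :=
    Polynomial.C ((u⁻¹ : (MvPolynomial ι ℂ)ˣ) : MvPolynomial ι ℂ) * H with hH'
  have hmon : H'.Monic := Polynomial.monic_C_mul_of_mul_leadingCoeff_eq_one (by
    rw [← hu]; simp)
  have hHH' : H ∣ H' := Dvd.intro_left _ rfl
  have hH'H : H' ∣ H := by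
    refine ⟨Polynomial.C ((u : (MvPolynomial ι ℂ)ˣ) : MvPolynomial ι ℂ), ?_⟩
    rw [hH', mul_right_comm, ← Polynomial.C_mul]
    simp
  refine hHH'.trans ?_
  rw [← Polynomial.modByMonic_eq_zero_iff_dvd hmon]
  ext1 k
  rw [Polynomial.coeff_zero]
  refine funext_set (fun _ => (Complex.ofReal) '' Set.Ioo (0:ℝ) 1)
    (fun _ => (Set.Ioo_infinite one_pos).image Complex.ofReal_injective.injOn) fun x hx => ?_
  choose m hm using fun j => hx j (Set.mem_univ j)
  obtain rfl : x = fun j => ((m j : ℝ) : ℂ) := funext fun j => (hm j).2.symm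
  have h1 : (G %ₘ H').map (eval (fun i => ((m i : ℝ) : ℂ))) = 0 := by
    rw [Polynomial.map_modByMonic _ hmon, Polynomial.modByMonic_eq_zero_iff_dvd (hmon.map _)]
    refine dvd_trans ?_ (h m fun i => ⟨(hm i).1.1, (hm i).1.2⟩)
    exact Polynomial.map_dvd _ hH'H
  have h2 := congrArg (fun p => p.coeff k) h1
  simpa [Polynomial.coeff_map] using h2

/-- `z` is a rational function with values `F η s` at the points of the lines -/
def Rp (z : KF P) (F : (Fin (P+1) → ℝ) → ℝ → ℂ) : Prop :=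
  ∃ A D : MvPolynomial (Fin (P+1)) ℂ, IsUnit (tau D).leadingCoeff ∧
    (∀ (η : Fin (P+1) → ℝ) (s : ℝ), (∀ k, 0 < η k) → 0 < s → eval (pt η s) D ≠ 0) ∧
    z * algebraMap _ (KF P) D = algebraMap _ (KF P) A ∧
    ∀ (η : Fin (P+1) → ℝ) (s : ℝ), (∀ k, 0 < η k) → 0 < s →
      F η s * eval (pt η s) D = eval (pt η s) A

lemma Rp.poly (q : MvPolynomial (Fin (P+1)) ℂ) :
    Rp (algebraMap _ (KF P) q) (fun η s => eval (pt η s) q) :=
  ⟨q, 1, by simp, fun m s _ _ => by simp, by simp, fun m s _ _ => by simp⟩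

lemma Rp.zero : Rp (0 : KF P) (fun _ _ => 0) := by
  have := Rp.poly (P := P) 0
  simpa using this

lemma Rp.add {z z' : KF P} {F F' : (Fin (P+1) → ℝ) → ℝ → ℂ} (h : Rp z F)
    (h' : Rp z' F') : Rp (z + z') (fun m s => F m s + F' m s) := by
  obtain ⟨A, D, h0, h1, h2, h3⟩ := h
  obtain ⟨A', D', h0', h1', h2', h3'⟩ := h'
  refine ⟨A * D' + A' * D, D * D', ?_, fun m s hm hs => ?_, ?_, fun m s hm hs => ?_⟩
  · rw [map_mul, Polynomial.leadingCoeff_mul]; exact h0.mul h0'
  · rw [map_mul]; exact mul_ne_zero (h1 m s hm hs) (h1' m s hm hs)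
  · rw [map_mul, map_add, map_mul, map_mul, ← h2, ← h2']; ring
  · rw [map_mul, map_add, map_mul, map_mul, ← h3 m s hm hs, ← h3' m s hm hs]; ring

lemma Rp.mul {z z' : KF P} {F F' : (Fin (P+1) → ℝ) → ℝ → ℂ} (h : Rp z F)
    (h' : Rp z' F') : Rp (z * z') (fun m s => F m s * F' m s) := by
  obtain ⟨A, D, h0, h1, h2, h3⟩ := h
  obtain ⟨A', D', h0', h1', h2', h3'⟩ := h'
  refine ⟨A * A', D * D', ?_, fun m s hm hs => ?_, ?_, fun m s hm hs => ?_⟩
  · rw [map_mul, Polynomial.leadingCoeff_mul]; exact h0.mul h0'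
  · rw [map_mul]; exact mul_ne_zero (h1 m s hm hs) (h1' m s hm hs)
  · rw [map_mul, map_mul, ← h2, ← h2']; ring
  · rw [map_mul, map_mul, ← h3 m s hm hs, ← h3' m s hm hs]; ring

lemma Rp.sum {ι : Type*} (t : Finset ι) (z : ι → KF P) (F : ι → (Fin (P+1) → ℝ) → ℝ → ℂ)
    (h : ∀ i ∈ t, Rp (z i) (F i)) : Rp (∑ i ∈ t, z i) (fun m s => ∑ i ∈ t, F i m s) := by
  classical
  induction t using Finset.induction_on with
  | empty => simpa using Rp.zero (P := P)
  | insert a t ha ih =>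
    simp only [Finset.sum_insert ha]
    exact (h a (by simp)).add (ih fun i hi => h i (by simp [hi]))

lemma Rp.prod {ι : Type*} (t : Finset ι) (z : ι → KF P) (F : ι → (Fin (P+1) → ℝ) → ℝ → ℂ)
    (h : ∀ i ∈ t, Rp (z i) (F i)) : Rp (∏ i ∈ t, z i) (fun m s => ∏ i ∈ t, F i m s) := by
  classical
  induction t using Finset.induction_on with
  | empty => simpa using Rp.poly (P := P) 1
  | insert a t ha ih =>
    simp only [Finset.prod_insert ha]
    exact (h a (by simp)).mul (ih fun i hi => h i (by simp [hi]))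

lemma Rp.inv (L : MvPolynomial (Fin (P+1)) ℂ) (hL : IsUnit (tau L).leadingCoeff)
    (hne : ∀ (η : Fin (P+1) → ℝ) (s : ℝ), (∀ k, 0 < η k) → 0 < s → eval (pt η s) L ≠ 0) :
    Rp ((algebraMap _ (KF P) L)⁻¹) (fun q s => (eval (pt q s) L)⁻¹) := by
  have hL0 : L ≠ 0 := by
    rintro rfl
    exact hne (fun _ => 1) 1 (fun _ => one_pos) one_pos (by simp)
  refine ⟨1, L, hL, hne, ?_, fun m s hm hs => ?_⟩
  · rw [map_one, inv_mul_cancel₀]
    rw [Ne, FaithfulSMul.algebraMap_eq_zero_iff]; exact hL0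
  · rw [inv_mul_cancel₀ (hne m s hm hs)]; simp

/-- A rational function whose values times those of `b` are polynomials on the lines. -/
lemma Rp.final {z : KF P} {F : (Fin (P+1) → ℝ) → ℝ → ℂ} (h : Rp z F)
    (b : MvPolynomial (Fin (P+1)) ℂ)
    (hb : ∀ η : Fin (P+1) → ℝ, (∀ k, 0 < η k ∧ η k < 1) → ∃ (Q : Polynomial ℂ) (s1 : ℝ),
      0 < s1 ∧ ∀ s : ℝ, s1 ≤ s → eval (pt η s) b * F η s = Q.eval (s : ℂ)) :
    ∃ Z : MvPolynomial (Fin (P+1)) ℂ, algebraMap _ (KF P) b * z = algebraMap _ (KF P) Z := by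
  obtain ⟨A, D, h0, h1, h2, h3⟩ := h
  have hdvd : tau D ∣ tau (b * A) := by
    refine dvd_of_eval _ _ h0 fun m hm => ?_
    rw [map_tau, map_tau]
    obtain ⟨Q, s1, hs1, hQ⟩ := hb m hm
    refine ⟨Q, ?_⟩
    refine Polynomial.eq_of_infinite_eval_eq _ _ ?_
    refine ((Set.Ici_infinite s1).image Complex.ofReal_injective.injOn).mono ?_
    rintro _ ⟨s, hs, rfl⟩
    have hs' : s1 ≤ s := hs
    have hs0 : 0 < s := hs1.trans_le hs'
    show Polynomial.eval (s:ℂ) (evL m (b * A)) = Polynomial.eval (s:ℂ) (evL m D * Q)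
    rw [Polynomial.eval_mul, ← hQ s hs', map_mul, Polynomial.eval_mul, eval_evL m s A,
      eval_evL m s D, eval_evL m s b, ← h3 m s (fun k => (hm k).1) hs0]
    ring
  obtain ⟨Z, hZ⟩ := hdvd
  refine ⟨Z.eval 0, ?_⟩
  have h4 : b * A = D * Z.eval 0 := by
    have := congrArg (Polynomial.eval 0) hZ
    rwa [tau_inv, Polynomial.eval_mul, tau_inv] at this
  have hD0 : D ≠ 0 := by
    rintro rfl
    exact h1 (fun _ => 1) 1 (fun _ => one_pos) one_pos (by simp)
  have hA : algebraMap _ (KF P) D ≠ 0 := by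
    rw [Ne, FaithfulSMul.algebraMap_eq_zero_iff]; exact hD0
  refine mul_right_cancel₀ hA ?_
  rw [mul_assoc, h2, ← map_mul, ← map_mul, h4, mul_comm D]

lemma tau_linT (g : Fin r → Fin (P+1)) (v : Fin r → Fin N → ℕ) (ρ : Fin N → ℕ) :
    tau (linT g v ρ) = Polynomial.C (C ((∑ k, ordG g v k ρ : ℕ) : ℂ)) * Polynomial.X +
      Polynomial.C (∑ k, C (ordG g v k ρ : ℂ) * X k + C ((∑ l, ρ l : ℕ) : ℂ)) := by
  unfold linT
  rw [map_add, map_sum, tau_C]
  have h1 : ∀ k : Fin (P+1), tau (C (ordG g v k ρ : ℂ) * X k : MvPolynomial (Fin (P+1)) ℂ) =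
      Polynomial.C (C (ordG g v k ρ : ℂ)) * Polynomial.X +
        Polynomial.C (C (ordG g v k ρ : ℂ) * X k) := by
    intro k
    rw [map_mul, tau_C, tau_X, mul_add, Polynomial.C_mul]
  rw [Finset.sum_congr rfl fun k _ => h1 k, Finset.sum_add_distrib, ← Finset.sum_mul,
    ← map_sum, ← map_sum, ← map_sum, Polynomial.C_add]
  push_cast
  ring

lemma unit_linT (g : Fin r → Fin (P+1)) (v : Fin r → Fin N → ℕ) (ρ : Fin N → ℕ)
    (hρ : 0 < ∑ l, ρ l) : IsUnit (tau (linT g v ρ)).leadingCoeff := by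
  by_cases h : ∑ k, ordG g v k ρ = 0
  · have h1 : linT g v ρ = C ((∑ l, ρ l : ℕ) : ℂ) := by
      unfold linT
      rw [Finset.sum_eq_zero, zero_add]
      intro k _
      have h2 : ordG g v k ρ = 0 := (Finset.sum_eq_zero_iff.1 h) k (Finset.mem_univ k)
      rw [h2]
      simp
    rw [h1, tau_C, Polynomial.leadingCoeff_C]
    refine IsUnit.map C (isUnit_iff_ne_zero.2 ?_)
    exact_mod_cast hρ.ne'
  · rw [tau_linT]
    exact lc_linG _ (by exact_mod_cast h) _

lemma eval_linT (g : Fin r → Fin (P+1)) (v : Fin r → Fin N → ℕ) (ρ : Fin N → ℕ)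
    (η : Fin (P+1) → ℝ) (s : ℝ) :
    eval (pt η s) (linT g v ρ) = ((kT g v η s ρ : ℝ) : ℂ) := by
  unfold linT kT pt
  rw [map_add, map_sum]
  simp only [map_mul, eval_C, eval_X]
  push_cast
  rfl

lemma kT_pos (g : Fin r → Fin (P+1)) (v : Fin r → Fin N → ℕ) (ρ : Fin N → ℕ)
    (hρ : 0 < ∑ l, ρ l) (η : Fin (P+1) → ℝ) (s : ℝ) (hη : ∀ k, 0 < η k) (hs : 0 < s) :
    0 < kT g v η s ρ := by
  unfold kT
  have h1 : 0 ≤ ∑ k, (ordG g v k ρ : ℝ) * (s + η k) :=
    Finset.sum_nonneg fun k _ => mul_nonneg (Nat.cast_nonneg _) (by have := hη k; linarith)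
  have h2 : (0 : ℝ) < ((∑ l, ρ l : ℕ) : ℝ) := by exact_mod_cast hρ
  linarith

/-- the sum over the cones of `J` -/
noncomputable def SJT (g : Fin r → Fin (P+1)) (v : Fin r → Fin N → ℕ) (R : SmoothFan N)
    (J : Finset (Fin r)) : KF P :=
  open Classical in
  ∑ σ ∈ R.cones, if J ⊆ minSetG g v σ ∧ σ.card + J.card = P + N + 1 then
    ∏ ρ ∈ σ, (algebraMap _ (KF P) (linT g v ρ))⁻¹ else 0

/-- the sum over the cones of `J`, with the constant of the limit -/
noncomputable def LJ (g : Fin r → Fin (P+1)) (v : Fin r → Fin N → ℕ) (θ : Fin r → ℝ)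
    (R : SmoothFan N) (J : Finset (Fin r)) : KF P :=
  open Classical in
  ∑ σ ∈ R.cones, if J ⊆ minSetG g v σ ∧ σ.card + J.card = P + N + 1 ∧
      (∃ ρ ∈ σ, ∃ k, ordG g v k ρ ≠ 0) ∧ AdmC g v θ J then
    algebraMap (MvPolynomial (Fin (P+1)) ℂ) (KF P) (C ((idxC g v J : ℂ)⁻¹)) *
      ∏ ρ ∈ σ, (algebraMap _ (KF P) (linT g v ρ))⁻¹ else 0

lemma Rp_LJ (g : Fin r → Fin (P+1)) (v : Fin r → Fin N → ℕ) (θ : Fin r → ℝ)
    (R : SmoothFan N) (J : Finset (Fin r)) :
    Rp (LJ g v θ R J) (fun η s => limT g v θ R η J s) := by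
  classical
  unfold LJ limT
  refine Rp.sum _ _ _ fun σ hσ => ?_
  by_cases h : J ⊆ minSetG g v σ ∧ σ.card + J.card = P + N + 1 ∧
      (∃ ρ ∈ σ, ∃ k, ordG g v k ρ ≠ 0) ∧ AdmC g v θ J
  · simp only [if_pos h]
    refine Rp.mul (by simpa using Rp.poly (P := P) (C ((idxC g v J : ℂ)⁻¹))) ?_
    refine Rp.prod σ _ (fun ρ η s => ((kT g v η s ρ : ℝ) : ℂ)⁻¹) fun ρ hρ => ?_
    have hp := rho_pos R σ hσ ρ hρ
    have h1 := Rp.inv (linT g v ρ) (unit_linT g v ρ hp) fun η s hη hs => by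
      rw [eval_linT]
      exact_mod_cast (kT_pos g v ρ hp η s hη hs).ne'
    simpa only [eval_linT] using h1
  · simp only [if_neg h]
    exact Rp.zero

lemma idx_id (n : ℕ) : (n : KF P) ^ 2 * algebraMap (MvPolynomial (Fin (P+1)) ℂ) (KF P) (C ((n : ℂ)⁻¹)) = (n : KF P) := by
  have h1 : (n : KF P) = algebraMap (MvPolynomial (Fin (P+1)) ℂ) (KF P) (C (n : ℂ) : MvPolynomial (Fin (P+1)) ℂ) := by
    simp
  rw [h1, ← map_pow, ← map_mul, ← map_pow, ← map_mul]
  congr 2
  by_cases hn : (n : ℂ) = 0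
  · rw [hn]
    simp
  · field_simp

/-- inclusion and exclusion for the groups with at least two terms -/
lemma prod_id2 (g : Fin r → Fin (P+1)) {K : Type} [Field K] (x : Fin (P+1) → K)
    (hx : ∀ k, x k + 1 ≠ 0) (T : Finset (Fin (P+1))) (hT : T ⊆ mulS g) :
    (∏ k ∈ mulS g, (x k + 1)) * ∏ k ∈ T, ((x k + 1)⁻¹ - 1) =
      (-1) ^ T.card * ((∏ k ∈ T, x k) * ∏ k ∈ mulS g \ T, (x k + 1)) := by
  classical
  rw [← Finset.prod_sdiff hT, mul_comm (∏ k ∈ mulS g \ T, (x k + 1)), mul_right_comm,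
    ← Finset.prod_mul_distrib, ← mul_assoc, ← Finset.prod_const, ← Finset.prod_mul_distrib]
  congr 1
  refine Finset.prod_congr rfl fun k _ => ?_
  have := hx k
  field_simp
  ring

lemma type_sub (g : Fin r → Fin (P+1)) (J : Finset (Fin r)) : typeG g J ⊆ mulS g := by
  intro k hk
  unfold typeG at hk
  unfold mulS
  rw [Finset.mem_filter] at hk ⊢
  exact ⟨hk.1, hk.2.trans (Finset.card_le_card
    (Finset.filter_subset_filter _ (Finset.subset_univ J)))⟩

lemma hJ_eq (g : Fin r → Fin (P+1)) (J : Finset (Fin r)) (hJJ : ∀ k, ∃ j ∈ J, g j = k) :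
    hJ g J = (∏ k ∈ typeG g J, X k) * ∏ k ∈ mulS g \ typeG g J, (X k + 1) := by
  unfold hJ
  rw [← Finset.prod_sdiff (type_sub g J), mul_comm]
  congr 1
  · refine Finset.prod_congr rfl fun k hk => ?_
    unfold typeG at hk
    rw [Finset.mem_filter] at hk
    rw [if_neg (by omega), add_zero]
  · refine Finset.prod_congr rfl fun k hk => ?_
    rw [Finset.mem_sdiff] at hk
    have h1 : ¬ 2 ≤ (J.filter fun j => g j = k).card := by
      intro h
      apply hk.2
      unfold typeG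
      rw [Finset.mem_filter]
      exact ⟨Finset.mem_univ _, h⟩
    obtain ⟨j, hj, hjk⟩ := hJJ k
    have h2 : 0 < (J.filter fun j => g j = k).card :=
      Finset.card_pos.2 ⟨j, Finset.mem_filter.2 ⟨hj, hjk⟩⟩
    rw [if_pos (by omega)]

open Classical in
lemma zeta_eqT (g : Fin r → Fin (P+1)) (v : Fin r → Fin N → ℕ) (θ : Fin r → ℝ)
    (R : SmoothFan N) :
    algebraMap _ (KF P) (E2 g) * topZetaT g v θ R =
      ∑ J : Finset (Fin r), if (∀ k, ∃ j ∈ J, g j = k) ∧ AdmC g v θ J then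
        (-1) ^ (J.card + (P + 1)) * (idxC g v J : KF P) *
          algebraMap (MvPolynomial (Fin (P+1)) ℂ) (KF P) (hJ g J) * SJT g v R J else 0 := by
  set x : Fin (P+1) → KF P :=
    fun k => algebraMap (MvPolynomial (Fin (P+1)) ℂ) (KF P) (X k) with hx
  have hx1 : ∀ k, algebraMap (MvPolynomial (Fin (P+1)) ℂ) (KF P) (X k + 1) = x k + 1 :=
    fun k => by rw [map_add, map_one]
  have hx0 : ∀ k, x k + 1 ≠ 0 := by
    intro k
    rw [← hx1, Ne, FaithfulSMul.algebraMap_eq_zero_iff]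
    intro h
    have h1 := congrArg (eval (fun _ : Fin (P+1) => (0:ℂ))) h
    simp at h1
  have hw : ∀ J : Finset (Fin r), (∀ k, ∃ j ∈ J, g j = k) →
      algebraMap (MvPolynomial (Fin (P+1)) ℂ) (KF P) (hJ g J) =
      (∏ k ∈ typeG g J, x k) * ∏ k ∈ mulS g \ typeG g J, (x k + 1) := by
    intro J hJJ
    rw [hJ_eq g J hJJ, map_mul, map_prod, map_prod]
    simp only [hx1]
    rfl
  have hE : algebraMap _ (KF P) (E2 g) = ∏ k ∈ mulS g, (x k + 1) := by
    unfold E2
    rw [map_prod]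
    simp only [hx1]
  -- one cone
  have h1 : ∀ σ : Finset (Fin N → ℕ), algebraMap _ (KF P) (E2 g) *
      (∑ K : Finset (Fin (P+1)), ((chiStrG g v θ σ K : ℤ) : KF P) *
        ∏ k ∈ K, (algebraMap (MvPolynomial (Fin (P+1)) ℂ) (KF P) (X k + 1))⁻¹) =
      ∑ J ∈ cellsG g v θ σ, (-1) ^ (N + σ.card) * (idxC g v J : KF P) *
        algebraMap (MvPolynomial (Fin (P+1)) ℂ) (KF P) (hJ g J) := by
    intro σ
    simp only [hx1]
    rw [chiStr_sum g v θ σ (fun k => (x k + 1)⁻¹), Finset.mul_sum, hE]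
    have h2 : ∀ T : Finset (Fin (P+1)), (∏ k ∈ mulS g, (x k + 1)) *
        (((chiG g v θ σ T : ℤ) : KF P) * ∏ k ∈ T, ((x k + 1)⁻¹ - 1)) =
        ∑ J ∈ (cellsG g v θ σ).filter (fun J => typeG g J = T),
          (-1) ^ (N + σ.card) * (idxC g v J : KF P) *
          algebraMap (MvPolynomial (Fin (P+1)) ℂ) (KF P) (hJ g J) := by
      intro T
      by_cases hT : T ⊆ mulS g
      · rw [mul_left_comm, prod_id2 g x hx0 T hT]
        have h3 : ∑ J ∈ (cellsG g v θ σ).filter (fun J => typeG g J = T),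
            (-1) ^ (N + σ.card) * (idxC g v J : KF P) *
              algebraMap (MvPolynomial (Fin (P+1)) ℂ) (KF P) (hJ g J) =
            ∑ J ∈ (cellsG g v θ σ).filter (fun J => typeG g J = T),
            (-1) ^ (N + σ.card) * (idxC g v J : KF P) *
              ((∏ k ∈ T, x k) * ∏ k ∈ mulS g \ T, (x k + 1)) := by
          refine Finset.sum_congr rfl fun J hJJ => ?_
          rw [Finset.mem_filter] at hJJ
          have h4 := hJJ.1
          unfold cellsG at h4
          rw [Finset.mem_filter] at h4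
          rw [hw J h4.2.1, hJJ.2]
        rw [h3, ← Finset.sum_mul, ← Finset.mul_sum, ← mul_assoc]
        congr 1
        unfold chiG mvG
        push_cast
        have h4 : ((-1 : KF P)) ^ T.card * (-1) ^ T.card = 1 := by
          rw [← mul_pow]; simp
        rw [pow_add _ (N + σ.card)]
        linear_combination ((-1 : KF P) ^ (N + σ.card) *
          ∑ J ∈ (cellsG g v θ σ).filter (fun J => typeG g J = T), (idxC g v J : KF P)) * h4
      · have h3 : (cellsG g v θ σ).filter (fun J => typeG g J = T) = ∅ := by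
          rw [Finset.filter_eq_empty_iff]
          intro J _ hJT
          exact hT (hJT ▸ type_sub g J)
        have h4 : chiG g v θ σ T = 0 := by
          unfold chiG mvG
          rw [h3]
          simp
        rw [h3, h4]
        simp
    rw [Finset.sum_congr rfl fun T _ => h2 T]
    exact Finset.sum_fiberwise _ _ _
  unfold topZetaT
  rw [Finset.mul_sum]
  have h5 : ∀ σ ∈ R.cones, algebraMap _ (KF P) (E2 g) *
      ((∑ K : Finset (Fin (P+1)), ((chiStrG g v θ σ K : ℤ) : KF P) *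
        ∏ k ∈ K, (algebraMap (MvPolynomial (Fin (P+1)) ℂ) (KF P) (X k + 1))⁻¹) *
        ∏ ρ ∈ σ, (algebraMap _ (KF P) (linT g v ρ))⁻¹) =
      ∑ J : Finset (Fin r), if (∀ k, ∃ j ∈ J, g j = k) ∧ AdmC g v θ J then
        (-1) ^ (J.card + (P + 1)) * (idxC g v J : KF P) *
          algebraMap (MvPolynomial (Fin (P+1)) ℂ) (KF P) (hJ g J) *
          (if J ⊆ minSetG g v σ ∧ σ.card + J.card = P + N + 1 then
            ∏ ρ ∈ σ, (algebraMap _ (KF P) (linT g v ρ))⁻¹ else 0) else 0 := by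
    intro σ _
    rw [← mul_assoc, h1 σ, Finset.sum_mul]
    unfold cellsG
    rw [Finset.sum_filter]
    have h6 : (minSetG g v σ).powerset = Finset.univ.filter (fun J => J ⊆ minSetG g v σ) := by
      ext J
      simp
    rw [h6, Finset.sum_filter]
    refine Finset.sum_congr rfl fun J _ => ?_
    by_cases ha : J ⊆ minSetG g v σ
    · rw [if_pos ha]
      by_cases hb : (∀ k, ∃ j ∈ J, g j = k) ∧ AdmC g v θ J
      · rw [if_pos hb]
        by_cases hc : σ.card + J.card = P + N + 1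
        · rw [if_pos ⟨hb.1, hc, hb.2⟩, if_pos ⟨ha, hc⟩]
          have h7 : ((-1 : KF P)) ^ (N + σ.card) = (-1) ^ (J.card + (P + 1)) := by
            have h8 : (-1 : KF P) ^ (N + σ.card) * (-1) ^ (J.card + (P + 1)) = 1 := by
              rw [← pow_add, show N + σ.card + (J.card + (P + 1)) = 2 * (N + P + 1) by omega,
                pow_mul]
              simp
            have h9 : ((-1 : KF P)) ^ (J.card + (P + 1)) * (-1) ^ (J.card + (P + 1)) = 1 := by
              rw [← mul_pow]; simp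
            linear_combination ((-1 : KF P)) ^ (J.card + (P + 1)) * h8 -
              (-1 : KF P) ^ (N + σ.card) * h9
          rw [h7]
        · rw [if_neg (fun h => hc h.2.1), if_neg (fun h => hc h.2), mul_zero]
      · rw [if_neg hb, if_neg (fun h => hb ⟨h.1, h.2.2⟩)]
    · rw [if_neg ha]
      by_cases hb : (∀ k, ∃ j ∈ J, g j = k) ∧ AdmC g v θ J
      · rw [if_pos hb, if_neg (fun h => ha h.1), mul_zero]
      · rw [if_neg hb]
  rw [Finset.sum_congr rfl h5, Finset.sum_comm]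
  refine Finset.sum_congr rfl fun J _ => ?_
  by_cases hb : (∀ k, ∃ j ∈ J, g j = k) ∧ AdmC g v θ J
  · simp only [if_pos hb]
    rw [← Finset.mul_sum]
    rfl
  · simp only [if_neg hb, Finset.sum_const_zero]

/-- splitting off the polynomial part -/
lemma SJT_split (g : Fin r → Fin (P+1)) (v : Fin r → Fin N → ℕ) (θ : Fin r → ℝ)
    (R : SmoothFan N) (J : Finset (Fin r)) (hA : AdmC g v θ J) :
    ∃ q : MvPolynomial (Fin (P+1)) ℂ, (idxC g v J : KF P) * SJT g v R J =
      (idxC g v J : KF P) ^ 2 * LJ g v θ R J + algebraMap _ (KF P) q := by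
  classical
  have h1 : ∀ σ ∈ R.cones, ∃ q : MvPolynomial (Fin (P+1)) ℂ,
      (idxC g v J : KF P) * (if J ⊆ minSetG g v σ ∧ σ.card + J.card = P + N + 1 then
        ∏ ρ ∈ σ, (algebraMap _ (KF P) (linT g v ρ))⁻¹ else 0) =
      (idxC g v J : KF P) ^ 2 * (if J ⊆ minSetG g v σ ∧ σ.card + J.card = P + N + 1 ∧
        (∃ ρ ∈ σ, ∃ k, ordG g v k ρ ≠ 0) ∧ AdmC g v θ J then
        algebraMap (MvPolynomial (Fin (P+1)) ℂ) (KF P) (C ((idxC g v J : ℂ)⁻¹)) *
          ∏ ρ ∈ σ, (algebraMap _ (KF P) (linT g v ρ))⁻¹ else 0) + algebraMap _ (KF P) q := by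
    intro σ hσ
    by_cases h2 : J ⊆ minSetG g v σ ∧ σ.card + J.card = P + N + 1
    · by_cases h3 : ∃ ρ ∈ σ, ∃ k, ordG g v k ρ ≠ 0
      · refine ⟨0, ?_⟩
        rw [if_pos h2, if_pos ⟨h2.1, h2.2, h3, hA⟩, map_zero, add_zero, ← mul_assoc, idx_id]
      · push Not at h3
        refine ⟨C (idxC g v J : ℂ) * ∏ ρ ∈ σ, C (((∑ l, ρ l : ℕ) : ℂ)⁻¹), ?_⟩
        rw [if_pos h2, if_neg (fun h => by
          obtain ⟨ρ, hρ, k, hk⟩ := h.2.2.1
          exact hk (h3 ρ hρ k)), mul_zero, zero_add, map_mul, map_prod]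
        have e1 : algebraMap (MvPolynomial (Fin (P+1)) ℂ) (KF P) (C (idxC g v J : ℂ)) =
            (idxC g v J : KF P) := by simp
        rw [e1]
        congr 1
        refine Finset.prod_congr rfl fun ρ hρ => ?_
        have e2 : linT g v ρ = C ((∑ l, ρ l : ℕ) : ℂ) := by
          unfold linT
          rw [Finset.sum_eq_zero, zero_add]
          intro k _
          rw [h3 ρ hρ k]
          simp
        have e3 : ((∑ l, ρ l : ℕ) : ℂ) ≠ 0 := by
          exact_mod_cast (rho_pos R σ hσ ρ hρ).ne'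
        rw [e2]
        refine inv_eq_of_mul_eq_one_right ?_
        rw [← map_mul, ← C_mul, mul_inv_cancel₀ e3, C_1, map_one]
    · refine ⟨0, ?_⟩
      rw [if_neg h2, if_neg (fun h => h2 ⟨h.1, h.2.1⟩), map_zero, mul_zero, mul_zero, add_zero]
  choose! q hq using h1
  refine ⟨∑ σ ∈ R.cones, q σ, ?_⟩
  unfold SJT LJ
  rw [Finset.mul_sum, Finset.mul_sum, map_sum, ← Finset.sum_add_distrib]
  exact Finset.sum_congr rfl fun σ hσ => hq σ hσ

theorem taskZeta : Pool.Agent.W423.NC.TaskZeta := by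
  classical
  intro r N P g v θ hg R p hp
  -- the main part
  obtain ⟨Z1, hZ1⟩ : ∃ Z : MvPolynomial (Fin (P+1)) ℂ, algebraMap _ (KF P) p *
      (∑ J ∈ Finset.univ.filter (fun J : Finset (Fin r) => ∀ k, ∃ j ∈ J, g j = k),
        algebraMap _ (KF P) (C ((-1) ^ J.card * (idxC g v J : ℂ) ^ 2) * hJ g J) *
          LJ g v θ R J) = algebraMap _ (KF P) Z := by
    refine Rp.final (Rp.sum _ _ _ fun J _ => (Rp.poly _).mul (Rp_LJ g v θ R J)) p ?_
    intro η hη
    obtain ⟨Q, s1, hs1, hQ⟩ := hp η hη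
    refine ⟨Q, s1, hs1, fun s hs => ?_⟩
    rw [← hQ s hs]
    unfold pt
    congr 1
    refine Finset.sum_congr rfl fun J _ => ?_
    rw [map_mul, eval_C]
  have hsplit : ∀ J : Finset (Fin r), ∃ q : MvPolynomial (Fin (P+1)) ℂ, AdmC g v θ J →
      (idxC g v J : KF P) * SJT g v R J =
      (idxC g v J : KF P) ^ 2 * LJ g v θ R J + algebraMap _ (KF P) q := by
    intro J
    by_cases h : AdmC g v θ J
    · obtain ⟨q, hq⟩ := SJT_split g v θ R J h
      exact ⟨q, fun _ => hq⟩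
    · exact ⟨0, fun h' => absurd h' h⟩
  choose q hq using hsplit
  refine ⟨(-1) ^ (P + 1) * Z1 + p * ∑ J : Finset (Fin r),
    (if (∀ k, ∃ j ∈ J, g j = k) ∧ AdmC g v θ J then (-1) ^ (J.card + (P + 1)) * hJ g J * q J
      else 0), ?_⟩
  rw [map_mul, mul_right_comm, zeta_eqT, map_add, map_mul, map_mul, ← hZ1, map_sum,
    Finset.sum_filter, map_pow, map_neg, map_one]
  have h1 : ∀ J : Finset (Fin r), (if (∀ k, ∃ j ∈ J, g j = k) ∧ AdmC g v θ J then
        (-1) ^ (J.card + (P + 1)) * (idxC g v J : KF P) *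
          algebraMap (MvPolynomial (Fin (P+1)) ℂ) (KF P) (hJ g J) * SJT g v R J else 0) =
      (-1) ^ (P + 1) * (if ∀ k, ∃ j ∈ J, g j = k then
        algebraMap _ (KF P) (C ((-1) ^ J.card * (idxC g v J : ℂ) ^ 2) * hJ g J) *
          LJ g v θ R J else 0) +
      algebraMap _ (KF P) (if (∀ k, ∃ j ∈ J, g j = k) ∧ AdmC g v θ J then
        (-1) ^ (J.card + (P + 1)) * hJ g J * q J else 0) := by
    intro J
    by_cases ha : ∀ k, ∃ j ∈ J, g j = k
    · by_cases hb : AdmC g v θ J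
      · rw [if_pos ⟨ha, hb⟩, if_pos ha, if_pos ⟨ha, hb⟩]
        have e1 := hq J hb
        have e0 : algebraMap (MvPolynomial (Fin (P+1)) ℂ) (KF P)
            (C ((-1) ^ J.card * (idxC g v J : ℂ) ^ 2) * hJ g J) =
            algebraMap _ (KF P) (C ((-1) ^ J.card * (idxC g v J : ℂ) ^ 2)) *
              algebraMap _ (KF P) (hJ g J) := map_mul _ _ _
        have e4 : algebraMap (MvPolynomial (Fin (P+1)) ℂ) (KF P)
            ((-1) ^ (J.card + (P + 1)) * hJ g J * q J) =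
            (-1) ^ (J.card + (P + 1)) * algebraMap _ (KF P) (hJ g J) *
              algebraMap _ (KF P) (q J) := by
          rw [map_mul, map_mul, map_pow, map_neg, map_one]
        have e2 : algebraMap (MvPolynomial (Fin (P+1)) ℂ) (KF P)
            (C ((-1) ^ J.card * (idxC g v J : ℂ) ^ 2)) =
            (-1) ^ J.card * (idxC g v J : KF P) ^ 2 := by
          simp
        rw [e0, e4, e2, pow_add]
        linear_combination ((-1) ^ J.card * (-1) ^ (P + 1) *
          algebraMap (MvPolynomial (Fin (P+1)) ℂ) (KF P) (hJ g J)) * e1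
      · rw [if_neg (fun h => hb h.2), if_pos ha, if_neg (fun h => hb h.2), map_zero, add_zero]
        have e3 : LJ g v θ R J = 0 := by
          unfold LJ
          exact Finset.sum_eq_zero fun σ _ => if_neg fun h => hb h.2.2.2
        rw [e3, mul_zero, mul_zero]
    · rw [if_neg (fun h => ha h.1), if_neg ha, if_neg (fun h => ha h.1), map_zero, mul_zero,
        add_zero]
  rw [Finset.sum_congr rfl fun J _ => h1 J, Finset.sum_add_distrib, ← Finset.mul_sum]
  ring

end Pool.Agent.W372.NC
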